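import Pool.Agent.Helper62.FedadcProof

/-!
A tree with 23 vertices and maximum degree 4 (not a spider) that has a connected partition of every
type and whose chromatic symmetric function has coefficient 5 at `e_(3,2^10)`. The definitions are
in `Pool/Agent/Helper62/FedadcDefs.lean`.
-/

set_option autoImplicit false

namespace Pool.Agent.Results.MP_fedadc_co.CpetTree23

open Pool.Agent.Helper62.Fedadc

theorem result : ∃ (T : SimpleGraph (Fin 23)) (_ : DecidableRel T.Adj),
    T.IsTree ∧ T.maxDegree = 4 ∧ (∃ u v, u ≠ v ∧ 3 ≤ T.degree u ∧ 3 ≤ T.degree v) ∧ IsCPET T ∧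
    ∃ c : Nat.Partition 23 → ℚ,
      IsEExpansion T c ∧ (∀ c', IsEExpansion T c' → c' = c) ∧ c threeTwos = 5 :=
  main

end Pool.Agent.Results.MP_fedadc_co.CpetTree23
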